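import Pool.Agent.Helper6.NX.GoalsB

/-!
# Packet NX S1F: two channels, one position
-/

set_option autoImplicit false

namespace Pool.Agent.Helper87.NX

open Equiv Pool.Agent.Helper6.NX

theorem ent_congr (hl2 : S_L2) {Ω α β : Type} [Fintype Ω] {P : Ω → ℝ} (hP : IsLaw P)
    (X : Ω → α) (Y : Ω → β) (h : ∀ ω ω', X ω = X ω' ↔ Y ω = Y ω') : ent P X = ent P Y :=
  le_antisymm (hl2 Ω β α P Y X hP (fun ω ω' _ _ e => (h ω ω').2 e))
    (hl2 Ω α β P X Y hP (fun ω ω' _ _ e => (h ω ω').1 e))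

/-- Transport of entropies along a map with a formula for sums. -/
theorem ent_comp {Ω Ω' α : Type} [Fintype Ω] [Fintype Ω'] {P : Ω → ℝ} {Q : Ω' → ℝ}
    (g : Ω → Ω') (hg : ∀ φ : Ω' → ℝ, ∑ z, P z * φ (g z) = ∑ y, Q y * φ y) (X : Ω' → α) :
    ent P (fun z => X (g z)) = ent Q X := by
  classical
  have hlaw : ∀ a, law P (fun z => X (g z)) a = law Q X a := by
    intro a
    have h := hg (fun y => if X y = a then 1 else 0)
    unfold law
    calc (∑ ω, if X (g ω) = a then P ω else 0)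
        = ∑ z, P z * (if X (g z) = a then 1 else 0) := by
          refine Finset.sum_congr rfl fun z _ => ?_
          by_cases h : X (g z) = a <;> simp [h]
      _ = ∑ y, Q y * (if X y = a then 1 else 0) := h
      _ = _ := by
          refine Finset.sum_congr rfl fun z _ => ?_
          by_cases h : X z = a <;> simp [h]
  unfold ent
  rw [← hg (fun y => Real.log (law Q X (X y)))]
  congr 1
  refine Finset.sum_congr rfl fun z _ => ?_
  rw [hlaw]

theorem res_eq_iff {n : ℕ} {D : Finset (Fin n)} {h h' : Perm (Fin n)} :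
    res D h = res D h' ↔ ∀ x ∈ D, h x = h' x := by
  constructor
  · intro e x hx
    have := congrFun e x
    unfold res at this
    rw [if_pos hx, if_pos hx] at this
    exact Option.some.inj this
  · intro e
    funext x
    unfold res
    by_cases hx : x ∈ D
    · rw [if_pos hx, if_pos hx, e x hx]
    · rw [if_neg hx, if_neg hx]

theorem im_congr {n : ℕ} {D : Finset (Fin n)} {w h h' : Perm (Fin n)}
    (e : ∀ x ∈ D, h x = h' x) : im (w * h) D = im (w * h') D := by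
  unfold im
  apply Finset.image_congr
  intro x hx
  rw [Perm.mul_apply, Perm.mul_apply, e x hx]

theorem mem_im {n : ℕ} {D : Finset (Fin n)} {w h : Perm (Fin n)} {x : Fin n} (hx : x ∈ D) :
    w (h x) ∈ im (w * h) D := by
  unfold im
  rw [Finset.mem_image]
  exact ⟨x, hx, rfl⟩

section

variable {n : ℕ} (ν : Perm (Fin n) → ℝ) (p : Fin n) (D₁ D₂ : Finset (Fin n))
  (w₁ w₂ : Perm (Fin n))

/-- The values revealed. -/
def CC (z : Perm (Fin n) × (Perm (Fin n) × Perm (Fin n))) :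
    ((Fin n → Option (Fin n)) × (Fin n → Option (Fin n))) ×
    ((Fin n → Option (Fin n)) × (Fin n → Option (Fin n))) :=
  ((res D₁ z.1, res D₂ z.1), (res (im (w₁ * z.1) D₁) z.2.1, res (im (w₂ * z.1) D₂) z.2.2))

/-- What equality of `CC` means. -/
theorem CC_eq {z z' : Perm (Fin n) × (Perm (Fin n) × Perm (Fin n))}
    (e : CC D₁ D₂ w₁ w₂ z = CC D₁ D₂ w₁ w₂ z') :
    (∀ x ∈ D₁, z.1 x = z'.1 x) ∧ (∀ x ∈ D₂, z.1 x = z'.1 x) ∧
    (im (w₁ * z.1) D₁ = im (w₁ * z'.1) D₁) ∧ (im (w₂ * z.1) D₂ = im (w₂ * z'.1) D₂) ∧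
    (∀ y ∈ im (w₁ * z.1) D₁, z.2.1 y = z'.2.1 y) ∧
    (∀ y ∈ im (w₂ * z.1) D₂, z.2.2 y = z'.2.2 y) := by
  unfold CC at e
  simp only [Prod.mk.injEq] at e
  obtain ⟨⟨e1, e2⟩, e3, e4⟩ := e
  rw [res_eq_iff] at e1 e2
  have i1 := im_congr (w := w₁) e1
  have i2 := im_congr (w := w₂) e2
  rw [← i1, res_eq_iff] at e3
  rw [← i2, res_eq_iff] at e4
  exact ⟨e1, e2, i1, i2, e3, e4⟩

/-- Sufficient for equality of `CC`. -/
theorem CC_of {z z' : Perm (Fin n) × (Perm (Fin n) × Perm (Fin n))}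
    (e1 : ∀ x ∈ D₁, z.1 x = z'.1 x) (e2 : ∀ x ∈ D₂, z.1 x = z'.1 x)
    (e3 : ∀ y ∈ im (w₁ * z.1) D₁, z.2.1 y = z'.2.1 y)
    (e4 : ∀ y ∈ im (w₂ * z.1) D₂, z.2.2 y = z'.2.2 y) :
    CC D₁ D₂ w₁ w₂ z = CC D₁ D₂ w₁ w₂ z' := by
  unfold CC
  simp only [Prod.mk.injEq]
  rw [← im_congr (w := w₁) e1, ← im_congr (w := w₂) e2]
  exact ⟨⟨res_eq_iff.2 e1, res_eq_iff.2 e2⟩, res_eq_iff.2 e3, res_eq_iff.2 e4⟩

/-- The kernel before normalisation. -/
noncomputable def kk (z : Perm (Fin n) × (Perm (Fin n) × Perm (Fin n))) (v : Fin n) : ℝ :=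
  kern ν (im (w₁ * z.1) D₁) z.2.1 (z.2.1 (w₁ (z.1 p))) (w₁ v) *
    kern ν (im (w₂ * z.1) D₂) z.2.2 (z.2.2 (w₂ (z.1 p))) (w₂ v)

end

theorem kern_nonneg {n : ℕ} {ν : Perm (Fin n) → ℝ} (hν : IsLaw ν) (D : Finset (Fin n))
    (f : Perm (Fin n)) (b u : Fin n) : 0 ≤ kern ν D f b u := by
  unfold kern
  apply div_nonneg
  · apply Finset.sum_nonneg
    intro g _
    split_ifs
    · exact hν.1 g
    · exact le_rfl
  · apply Finset.sum_nonneg
    intro g _
    split_ifs
    · exact hν.1 g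
    · exact le_rfl

theorem kern_pos {n : ℕ} {ν : Perm (Fin n) → ℝ} (hν : IsLaw ν) (D : Finset (Fin n))
    (f : Perm (Fin n)) (u : Fin n) (hf : 0 < ν f) : 0 < kern ν D f (f u) u := by
  unfold kern
  apply div_pos
  · apply Finset.sum_pos'
    · intro g _
      split_ifs
      · exact hν.1 g
      · exact le_rfl
    · refine ⟨f, Finset.mem_univ _, ?_⟩
      rw [if_pos ⟨fun _ _ => rfl, rfl⟩]
      exact hf
  · apply Finset.sum_pos'
    · intro g _
      split_ifs
      · exact hν.1 g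
      · exact le_rfl
    · refine ⟨f, Finset.mem_univ _, ?_⟩
      rw [if_pos (fun _ _ => rfl)]
      exact hf

theorem kern_congr {n : ℕ} {ν : Perm (Fin n) → ℝ} {D : Finset (Fin n)}
    {f f' : Perm (Fin n)} (e : ∀ y ∈ D, f y = f' y) (b u : Fin n) :
    kern ν D f b u = kern ν D f' b u := by
  have h : ∀ g : Perm (Fin n), (∀ x ∈ D, g x = f x) ↔ (∀ x ∈ D, g x = f' x) := by
    intro g
    constructor
    · intro h x hx
      rw [h x hx, e x hx]
    · intro h x hx
      rw [h x hx, e x hx]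
  unfold kern
  simp only [h]

theorem thmS1F (hl2 : S_L2) (hl3 : S_L3) (hl4 : S_L4) (hl7 : S_L7) : S_S1F := by
  intro n ν p D₁ D₂ w₁ w₂ hν
  classical
  -- the probability space
  have h7b := hl7 (Perm (Fin n)) (Perm (Fin n)) Unit Unit Unit ν (fun _ => ν)
    (fun _ _ => ()) (fun _ _ => ()) (fun _ => ()) hν (fun _ => hν)
  have hνν : IsLaw (prd ν ν) := (h7b.2.2.2.2 ν (fun _ => ()) hν).1
  have h7c := hl7 (Perm (Fin n)) (Perm (Fin n) × Perm (Fin n)) Unit Unit Unit ν
    (fun _ => prd ν ν) (fun _ _ => ()) (fun _ _ => ()) (fun _ => ()) hν (fun _ => hνν)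
  have hP : IsLaw (prd ν (prd ν ν)) := (h7c.2.2.2.2 (prd ν ν) (fun _ => ()) hνν).1
  set P : Perm (Fin n) × (Perm (Fin n) × Perm (Fin n)) → ℝ := prd ν (prd ν ν) with hPdef
  set C := CC D₁ D₂ w₁ w₂ with hC
  -- product formula
  have prodent : ∀ (α β : Type) (X : Perm (Fin n) → α) (Y : Perm (Fin n) × Perm (Fin n) → β),
      ent P (fun z => (X z.1, Y z.2)) = ent ν X + ent (prd ν ν) Y := by
    intro α β X Y
    exact ((hl7 (Perm (Fin n)) (Perm (Fin n) × Perm (Fin n)) β β α ν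
      (fun _ => prd ν ν) (fun _ => Y) (fun _ => Y) X hν (fun _ => hνν)).2.2.2.2
      (prd ν ν) Y hνν).2.1
  have prodent2 : ∀ (α β : Type) (X : Perm (Fin n) → α) (Y : Perm (Fin n) → β),
      ent (prd ν ν) (fun z => (X z.1, Y z.2)) = ent ν X + ent ν Y := by
    intro α β X Y
    exact ((hl7 (Perm (Fin n)) (Perm (Fin n)) β β α ν
      (fun _ => ν) (fun _ => Y) (fun _ => Y) X hν (fun _ => hν)).2.2.2.2
      ν Y hν).2.1
  -- (a)
  have ha : cent ν (fun h => h p) (res (D₁ ∪ D₂)) ≤ cent P (fun z => z.1 p) C := by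
    have h1 := (hl4 _ _ _ _ P (fun z => z.1 p) (fun z => (z.2, res (D₁ ∪ D₂) z.1)) C hP).1
    refine le_trans (le_of_eq ?_) h1
    unfold cent
    have e1 : ent P (fun z => (z.1 p, ((z.2, res (D₁ ∪ D₂) z.1), C z))) =
        ent P (fun z => ((z.1 p, res (D₁ ∪ D₂) z.1), z.2)) := by
      apply ent_congr hl2 hP
      intro z z'
      simp only [Prod.mk.injEq]
      constructor
      · rintro ⟨a1, ⟨a2, a3⟩, -⟩
        exact ⟨⟨a1, a3⟩, a2⟩
      · rintro ⟨⟨a1, a3⟩, a2⟩
        refine ⟨a1, ⟨a2, a3⟩, ?_⟩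
        rw [res_eq_iff] at a3
        apply CC_of
        · exact fun x hx => a3 x (Finset.mem_union_left _ hx)
        · exact fun x hx => a3 x (Finset.mem_union_right _ hx)
        · intro y _
          rw [a2]
        · intro y _
          rw [a2]
    have e2 : ent P (fun z => ((z.2, res (D₁ ∪ D₂) z.1), C z)) =
        ent P (fun z => (res (D₁ ∪ D₂) z.1, z.2)) := by
      apply ent_congr hl2 hP
      intro z z'
      simp only [Prod.mk.injEq]
      constructor
      · rintro ⟨⟨a2, a3⟩, -⟩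
        exact ⟨a3, a2⟩
      · rintro ⟨a3, a2⟩
        refine ⟨⟨a2, a3⟩, ?_⟩
        rw [res_eq_iff] at a3
        apply CC_of
        · exact fun x hx => a3 x (Finset.mem_union_left _ hx)
        · exact fun x hx => a3 x (Finset.mem_union_right _ hx)
        · intro y _
          rw [a2]
        · intro y _
          rw [a2]
    rw [e1, e2, prodent _ _ (fun h => (h p, res (D₁ ∪ D₂) h)) (fun y => y),
      prodent _ _ (res (D₁ ∪ D₂)) (fun y => y)]
    ring
  -- (b)
  have hb : cent P (fun z => z.1 p) C =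
      cent P (fun z => (z.2.1 (w₁ (z.1 p)), z.2.2 (w₂ (z.1 p)))) C -
      cent P (fun z => (z.2.1 (w₁ (z.1 p)), z.2.2 (w₂ (z.1 p)))) (fun z => (C z, z.1 p)) +
      cent P (fun z => z.1 p)
        (fun z => (C z, (z.2.1 (w₁ (z.1 p)), z.2.2 (w₂ (z.1 p))))) := by
    unfold cent
    have e1 : ent P (fun z => ((z.2.1 (w₁ (z.1 p)), z.2.2 (w₂ (z.1 p))), (C z, z.1 p))) =
        ent P (fun z => (z.1 p, (C z, (z.2.1 (w₁ (z.1 p)), z.2.2 (w₂ (z.1 p)))))) := by
      apply ent_congr hl2 hP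
      intro z z'
      simp only [Prod.mk.injEq]
      tauto
    have e2 : ent P (fun z => ((z.2.1 (w₁ (z.1 p)), z.2.2 (w₂ (z.1 p))), C z)) =
        ent P (fun z => (C z, (z.2.1 (w₁ (z.1 p)), z.2.2 (w₂ (z.1 p))))) := by
      apply ent_congr hl2 hP
      intro z z'
      simp only [Prod.mk.injEq]
      tauto
    have e3 : ent P (fun z => (C z, z.1 p)) = ent P (fun z => (z.1 p, C z)) := by
      apply ent_congr hl2 hP
      intro z z'
      simp only [Prod.mk.injEq]
      tauto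
    rw [e1, e2, e3]
    ring
  -- (c), first part
  have hc : cent P (fun z => (z.2.1 (w₁ (z.1 p)), z.2.2 (w₂ (z.1 p)))) C ≤
      cent P (fun z => z.2.1 (w₁ (z.1 p))) C + cent P (fun z => z.2.2 (w₂ (z.1 p))) C := by
    have h1 := (hl4 _ _ _ _ P (fun z => z.2.1 (w₁ (z.1 p))) (fun z => z.2.2 (w₂ (z.1 p)))
      C hP).2
    have e1 : ent P (fun z => ((z.2.1 (w₁ (z.1 p)), z.2.2 (w₂ (z.1 p))), C z)) =
        ent P (fun z => (z.2.1 (w₁ (z.1 p)), z.2.2 (w₂ (z.1 p)), C z)) := by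
      apply ent_congr hl2 hP
      intro z z'
      simp only [Prod.mk.injEq]
      tauto
    unfold cent
    rw [e1]
    linarith
  -- marginals
  have sumν : ∑ g, ν g = 1 := hν.2
  have m1 : ∀ φ : Perm (Fin n) × Perm (Fin n) → ℝ,
      ∑ z, P z * φ (z.2.1, z.1) = ∑ y, prd ν ν y * φ y := by
    intro φ
    rw [hPdef]
    simp only [Fintype.sum_prod_type, prd]
    rw [Finset.sum_comm]
    refine Finset.sum_congr rfl fun f _ => ?_
    refine Finset.sum_congr rfl fun h _ => ?_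
    have : ∀ x : Perm (Fin n), ν h * (ν f * ν x) * φ (f, h) = ν x * (ν f * ν h * φ (f, h)) := by
      intro x
      ring
    simp only [this]
    rw [← Finset.sum_mul, sumν, one_mul]
  have m2 : ∀ φ : Perm (Fin n) × Perm (Fin n) → ℝ,
      ∑ z, P z * φ (z.2.2, z.1) = ∑ y, prd ν ν y * φ y := by
    intro φ
    rw [hPdef]
    simp only [Fintype.sum_prod_type, prd]
    have : ∀ h : Perm (Fin n), ∑ f₁, ∑ f₂, ν h * (ν f₁ * ν f₂) * φ (f₂, h) =
        ∑ f₂, ν f₂ * ν h * φ (f₂, h) := by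
      intro h
      rw [Finset.sum_comm]
      refine Finset.sum_congr rfl fun f₂ _ => ?_
      have : ∀ x : Perm (Fin n), ν h * (ν x * ν f₂) * φ (f₂, h) =
          ν x * (ν f₂ * ν h * φ (f₂, h)) := by
        intro x
        ring
      simp only [this]
      rw [← Finset.sum_mul, sumν, one_mul]
    simp only [this]
    rw [Finset.sum_comm]
  -- (c), second part
  have hc1 : cent P (fun z => z.2.1 (w₁ (z.1 p))) C ≤
      cent (prd ν ν) (fun z => z.1 (w₁ (z.2 p))) (fun z => res D₁ (z.1 * w₁ * z.2)) := by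
    have h1 := (hl4 _ _ _ _ P (fun z => z.2.1 (w₁ (z.1 p))) C
      (fun z => res D₁ (z.2.1 * w₁ * z.1)) hP).1
    have key : ∀ z z', C z = C z' →
        res D₁ (z.2.1 * w₁ * z.1) = res D₁ (z'.2.1 * w₁ * z'.1) := by
      intro z z' e
      obtain ⟨a1, a2, a3, a4, a5, a6⟩ := CC_eq D₁ D₂ w₁ w₂ e
      rw [res_eq_iff]
      intro x hx
      simp only [Perm.mul_apply]
      rw [← a1 x hx, a5 _ (mem_im hx)]
    have e1 : cent P (fun z => z.2.1 (w₁ (z.1 p)))
        (fun z => (C z, res D₁ (z.2.1 * w₁ * z.1))) =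
        cent P (fun z => z.2.1 (w₁ (z.1 p))) C := by
      unfold cent
      congr 1
      · apply ent_congr hl2 hP
        intro z z'
        simp only [Prod.mk.injEq]
        exact ⟨fun h => ⟨h.1, h.2.1⟩, fun h => ⟨h.1, h.2, key _ _ h.2⟩⟩
      · apply ent_congr hl2 hP
        intro z z'
        simp only [Prod.mk.injEq]
        exact ⟨fun h => h.1, fun h => ⟨h, key _ _ h⟩⟩
    rw [e1] at h1
    refine h1.trans (le_of_eq ?_)
    unfold cent
    rw [← ent_comp (fun z : Perm (Fin n) × (Perm (Fin n) × Perm (Fin n)) => (z.2.1, z.1)) m1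
      (fun z => (z.1 (w₁ (z.2 p)), res D₁ (z.1 * w₁ * z.2))),
      ← ent_comp (fun z : Perm (Fin n) × (Perm (Fin n) × Perm (Fin n)) => (z.2.1, z.1)) m1
      (fun z => res D₁ (z.1 * w₁ * z.2))]
  have hc2 : cent P (fun z => z.2.2 (w₂ (z.1 p))) C ≤
      cent (prd ν ν) (fun z => z.1 (w₂ (z.2 p))) (fun z => res D₂ (z.1 * w₂ * z.2)) := by
    have h1 := (hl4 _ _ _ _ P (fun z => z.2.2 (w₂ (z.1 p))) C
      (fun z => res D₂ (z.2.2 * w₂ * z.1)) hP).1
    have key : ∀ z z', C z = C z' →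
        res D₂ (z.2.2 * w₂ * z.1) = res D₂ (z'.2.2 * w₂ * z'.1) := by
      intro z z' e
      obtain ⟨a1, a2, a3, a4, a5, a6⟩ := CC_eq D₁ D₂ w₁ w₂ e
      rw [res_eq_iff]
      intro x hx
      simp only [Perm.mul_apply]
      rw [← a2 x hx, a6 _ (mem_im hx)]
    have e1 : cent P (fun z => z.2.2 (w₂ (z.1 p)))
        (fun z => (C z, res D₂ (z.2.2 * w₂ * z.1))) =
        cent P (fun z => z.2.2 (w₂ (z.1 p))) C := by
      unfold cent
      congr 1
      · apply ent_congr hl2 hP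
        intro z z'
        simp only [Prod.mk.injEq]
        exact ⟨fun h => ⟨h.1, h.2.1⟩, fun h => ⟨h.1, h.2, key _ _ h.2⟩⟩
      · apply ent_congr hl2 hP
        intro z z'
        simp only [Prod.mk.injEq]
        exact ⟨fun h => h.1, fun h => ⟨h, key _ _ h⟩⟩
    rw [e1] at h1
    refine h1.trans (le_of_eq ?_)
    unfold cent
    rw [← ent_comp (fun z : Perm (Fin n) × (Perm (Fin n) × Perm (Fin n)) => (z.2.2, z.1)) m2
      (fun z => (z.1 (w₂ (z.2 p)), res D₂ (z.1 * w₂ * z.2))),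
      ← ent_comp (fun z : Perm (Fin n) × (Perm (Fin n) × Perm (Fin n)) => (z.2.2, z.1)) m2
      (fun z => res D₂ (z.1 * w₂ * z.2))]
  -- (d)
  have hd : (∑ h, ν h * cent ν (fun f => f (w₁ (h p))) (res (im (w₁ * h) D₁))) +
      (∑ h, ν h * cent ν (fun f => f (w₂ (h p))) (res (im (w₂ * h) D₂))) ≤
      cent P (fun z => (z.2.1 (w₁ (z.1 p)), z.2.2 (w₂ (z.1 p)))) (fun z => (C z, z.1 p)) := by
    have h1 := (hl4 _ _ _ _ P (fun z => (z.2.1 (w₁ (z.1 p)), z.2.2 (w₂ (z.1 p))))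
      (fun z => z.1) (fun z => (C z, z.1 p)) hP).1
    refine le_trans (le_of_eq ?_) h1
    have e1 : cent P (fun z => (z.2.1 (w₁ (z.1 p)), z.2.2 (w₂ (z.1 p))))
        (fun z => (z.1, (C z, z.1 p))) =
        cent P (fun z => (z.2.1 (w₁ (z.1 p)), z.2.2 (w₂ (z.1 p))))
        (fun z => ((res (im (w₁ * z.1) D₁) z.2.1, res (im (w₂ * z.1) D₂) z.2.2), z.1)) := by
      have key : ∀ z z' : Perm (Fin n) × (Perm (Fin n) × Perm (Fin n)),
          (z.1, (C z, z.1 p)) = (z'.1, (C z', z'.1 p)) ↔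
          ((res (im (w₁ * z.1) D₁) z.2.1, res (im (w₂ * z.1) D₂) z.2.2), z.1) =
          ((res (im (w₁ * z'.1) D₁) z'.2.1, res (im (w₂ * z'.1) D₂) z'.2.2), z'.1) := by
        intro z z'
        rw [hC]
        unfold CC
        simp only [Prod.mk.injEq]
        constructor
        · rintro ⟨a1, ⟨⟨-, -⟩, a2, a3⟩, -⟩
          exact ⟨⟨a2, a3⟩, a1⟩
        · rintro ⟨⟨a2, a3⟩, a1⟩
          refine ⟨a1, ⟨⟨by rw [a1], by rw [a1]⟩, a2, a3⟩, by rw [a1]⟩
      unfold cent
      congr 1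
      · apply ent_congr hl2 hP
        intro z z'
        rw [Prod.mk.injEq, Prod.mk.injEq (z.2.1 (w₁ (z.1 p)), z.2.2 (w₂ (z.1 p))), key]
      · apply ent_congr hl2 hP
        exact key
    rw [e1]
    have h2 := (hl7 (Perm (Fin n)) (Perm (Fin n) × Perm (Fin n)) (Fin n × Fin n)
      ((Fin n → Option (Fin n)) × (Fin n → Option (Fin n))) Unit ν
      (fun _ => prd ν ν) (fun h y => (y.1 (w₁ (h p)), y.2 (w₂ (h p))))
      (fun h y => (res (im (w₁ * h) D₁) y.1, res (im (w₂ * h) D₂) y.2)) (fun _ => ()) hν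
      (fun _ => hνν)).2.1
    have e2 : mixl ν (fun _ : Perm (Fin n) => prd ν ν) = P := rfl
    rw [e2] at h2
    rw [h2, ← Finset.sum_add_distrib]
    refine Finset.sum_congr rfl fun h _ => ?_
    rw [← mul_add]
    congr 1
    unfold cent
    have e3 : ent (prd ν ν) (fun y => ((y.1 (w₁ (h p)), y.2 (w₂ (h p))),
        (res (im (w₁ * h) D₁) y.1, res (im (w₂ * h) D₂) y.2))) =
        ent (prd ν ν) (fun y => ((y.1 (w₁ (h p)), res (im (w₁ * h) D₁) y.1),
        (y.2 (w₂ (h p)), res (im (w₂ * h) D₂) y.2))) := by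
      apply ent_congr hl2 hνν
      intro z z'
      simp only [Prod.mk.injEq]
      tauto
    rw [e3, prodent2 _ _ (fun f => (f (w₁ (h p)), res (im (w₁ * h) D₁) f))
      (fun f => (f (w₂ (h p)), res (im (w₂ * h) D₂) f)),
      prodent2 _ _ (res (im (w₁ * h) D₁)) (res (im (w₂ * h) D₂))]
    ring
  -- (e)
  set K := kk ν p D₁ D₂ w₁ w₂ with hK
  have hK0 : ∀ z v, 0 ≤ K z v := fun z v =>
    mul_nonneg (kern_nonneg hν _ _ _ _) (kern_nonneg hν _ _ _ _)
  set Y : Perm (Fin n) × (Perm (Fin n) × Perm (Fin n)) →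
      (((Fin n → Option (Fin n)) × (Fin n → Option (Fin n))) ×
      ((Fin n → Option (Fin n)) × (Fin n → Option (Fin n)))) × (Fin n × Fin n) :=
    fun z => (C z, (z.2.1 (w₁ (z.1 p)), z.2.2 (w₂ (z.1 p)))) with hY
  have hwell : ∀ z z', Y z = Y z' → K z = K z' := by
    intro z z' e
    rw [hY] at e
    simp only [Prod.mk.injEq] at e
    obtain ⟨e0, b1, b2⟩ := e
    obtain ⟨a1, a2, a3, a4, a5, a6⟩ := CC_eq D₁ D₂ w₁ w₂ e0
    funext v
    rw [hK]
    unfold kk
    rw [← b1, ← b2, ← a3, ← a4, kern_congr a5, kern_congr a6]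
  set q : ((((Fin n → Option (Fin n)) × (Fin n → Option (Fin n))) ×
      ((Fin n → Option (Fin n)) × (Fin n → Option (Fin n)))) × (Fin n × Fin n)) → Fin n → ℝ :=
    fun y v => if h : ∃ z, Y z = y then K h.choose v / ∑ u, K h.choose u else 0 with hq
  have hqY : ∀ z v, q (Y z) v = K z v / ∑ u, K z u := by
    intro z v
    have hex : ∃ z', Y z' = Y z := ⟨z, rfl⟩
    have e : K hex.choose = K z := hwell _ _ hex.choose_spec
    rw [hq]
    simp only
    rw [dif_pos hex, e]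
  have he := hl3 _ _ _ P (fun z => z.1 p) Y q hP
    (by
      intro y v
      rw [hq]
      simp only
      split_ifs with h
      · exact div_nonneg (hK0 _ _) (Finset.sum_nonneg fun u _ => hK0 _ _)
      · exact le_rfl)
    (by
      intro y s
      rw [hq]
      simp only
      split_ifs with h
      · rw [← Finset.sum_div]
        apply div_le_one_of_le₀
        · exact Finset.sum_le_sum_of_subset_of_nonneg (Finset.subset_univ _)
            fun u _ _ => hK0 _ _
        · exact Finset.sum_nonneg fun u _ => hK0 _ _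
      · simp)
    (by
      intro z hz
      rw [hqY]
      have hpos : 0 < K z (z.1 p) := by
        rw [hPdef] at hz
        unfold prd at hz
        have n1 := hν.1 z.1
        have n2 := hν.1 z.2.1
        have n3 := hν.1 z.2.2
        have p2 : 0 < ν z.2.1 := by
          rcases n2.lt_or_eq with h | h
          · exact h
          · rw [← h] at hz
            simp at hz
        have p3 : 0 < ν z.2.2 := by
          rcases n3.lt_or_eq with h | h
          · exact h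
          · rw [← h] at hz
            simp at hz
        exact mul_pos (kern_pos hν _ _ _ p2) (kern_pos hν _ _ _ p3)
      apply div_pos hpos
      exact Finset.sum_pos' (fun u _ => hK0 _ _) ⟨z.1 p, Finset.mem_univ _, hpos⟩)
  have he2 : -∑ z, P z * Real.log (q (Y z) (z.1 p)) =
      ∑ h, ∑ f₁, ∑ f₂, ν h * ν f₁ * ν f₂ *
      Real.log ((∑ v, kern ν (im (w₁ * h) D₁) f₁ (f₁ (w₁ (h p))) (w₁ v) *
          kern ν (im (w₂ * h) D₂) f₂ (f₂ (w₂ (h p))) (w₂ v)) /
        (kern ν (im (w₁ * h) D₁) f₁ (f₁ (w₁ (h p))) (w₁ (h p)) *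
          kern ν (im (w₂ * h) D₂) f₂ (f₂ (w₂ (h p))) (w₂ (h p)))) := by
    rw [← Finset.sum_neg_distrib]
    simp only [hqY]
    rw [Fintype.sum_prod_type]
    refine Finset.sum_congr rfl fun h _ => ?_
    rw [Fintype.sum_prod_type]
    refine Finset.sum_congr rfl fun f₁ _ => ?_
    refine Finset.sum_congr rfl fun f₂ _ => ?_
    rw [← mul_neg, ← Real.log_inv, inv_div]
    rw [hPdef]
    unfold prd
    rw [← mul_assoc]
    rfl
  rw [he2] at he
  linarith

end Pool.Agent.Helper87.NX
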